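import Pool.Agent.Q161.EA.Stm
import Pool.Agent.Q247.EL.M1

/-!
# Project EA (helper161), job MER: Mertens' second theorem for the primes of degree one
-/

set_option autoImplicit false

namespace Pool.Agent.Q182.EA

open Finset NumberField
open Pool.Agent.Q51.EL Pool.Agent.Q161.EA

theorem mer : S_MER := by
  intro L _ _
  obtain ⟨M, hM0, hM⟩ := Q282.NF.nu_sum L
  refine ⟨M + Real.log 2, fun Y hY => ?_⟩
  have hfl : 3 ≤ ⌊Y⌋₊ := Nat.le_floor (by exact_mod_cast hY)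
  have h1 := hM ⌊Y⌋₊ hfl
  have h2 : ∑ l ∈ pr Y, (N1 L l : ℝ) / l = ∑ p ∈ Q282.BP.PP ⌊Y⌋₊, Q282.NF.nu L p / p := by
    unfold pr Q282.BP.PP
    refine sum_congr rfl fun p hp => ?_
    rw [Pool.Agent.Q247.EL.N1_nu L p (mem_filter.1 hp).2]
  rw [h2]
  have hfl' : (3 : ℝ) ≤ (⌊Y⌋₊ : ℝ) := by exact_mod_cast hfl
  have hY2 : Y < (⌊Y⌋₊ : ℝ) + 1 := Nat.lt_floor_add_one Y
  have hY3 : (⌊Y⌋₊ : ℝ) ≤ Y := Nat.floor_le (by linarith)
  have hlog3 : 1 < Real.log 3 := by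
    rw [Real.lt_log_iff_exp_lt (by norm_num)]
    exact Real.exp_one_lt_d9.trans (by norm_num)
  have hl1 : 1 < Real.log ⌊Y⌋₊ := hlog3.trans_le (Real.log_le_log (by norm_num) hfl')
  have hl2 : Real.log Y ≤ 2 * Real.log ⌊Y⌋₊ := by
    have : Real.log Y ≤ Real.log ((⌊Y⌋₊ : ℝ) ^ 2) := Real.log_le_log (by linarith) (by nlinarith)
    rw [Real.log_pow] at this
    exact_mod_cast this
  have hl3 : 1 < Real.log Y := hlog3.trans_le (Real.log_le_log (by norm_num) hY)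
  have hl4 : Real.log (Real.log Y) ≤ Real.log 2 + Real.log (Real.log ⌊Y⌋₊) := by
    rw [← Real.log_mul (by norm_num) (by linarith)]
    exact Real.log_le_log (by linarith) hl2
  have hl5 : Real.log (Real.log ⌊Y⌋₊) ≤ Real.log (Real.log Y) :=
    Real.log_le_log (by linarith) (Real.log_le_log (by linarith) hY3)
  have hl6 : 0 ≤ Real.log 2 := Real.log_nonneg (by norm_num)
  rw [abs_le] at h1 ⊢
  constructor <;> linarith [h1.1, h1.2]

end Pool.Agent.Q182.EA
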